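import Pool.Agent.Lib.MP_4d37d6_al.Lie.Main

/-!
Bokut's question for Lie algebras: a finitely generated Lie algebra with a recursive basis over a
prime field embeds into a simple finitely presented Lie algebra.
-/

set_option autoImplicit false

namespace Pool.Agent.Results.MP_4d37d6_al.LieEmbedding

universe u v

/-- The standard numbering of the bracketed words (nonassociative monomials) in `n` letters. -/
def code {n : ℕ} : FreeMagma (Fin n) → ℕ
  | .of i => 2 * i
  | .mul x y => 2 * Nat.pair (code x) (code y) + 1

/-- The value of a bracketed word as a Lie monomial in `a`. -/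
def lieMonomial {L : Type v} [LieRing L] {n : ℕ} (a : Fin n → L) : FreeMagma (Fin n) → L
  | .of i => a i
  | .mul x y => ⁅lieMonomial a x, lieMonomial a y⁆

/-- `L` has a recursive basis of Lie monomials in `a`: a recursive set `B` of bracketed words whose
monomials form an `F`-basis of `L` (so `a` generates `L`), and an algorithm writing every monomial
as a combination of monomials of `B`; words are handled through their numbers, and the coefficient
`p / q` of the prime field is given as `(p, q)`. -/
def HasRecursiveBasis (F : Type u) [Field F] {L : Type v} [LieRing L] [LieAlgebra F L] {n : ℕ}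
    (a : Fin n → L) : Prop :=
  ∃ B : Set (FreeMagma (Fin n)), ComputablePred (fun k : ℕ => k ∈ code '' B) ∧
    LinearIndepOn F (lieMonomial a) B ∧ Submodule.span F (lieMonomial a '' B) = ⊤ ∧
    ∃ f : ℕ → List ((ℤ × ℕ) × ℕ), Computable f ∧
      ∀ w, ∃ l : List ((ℤ × ℕ) × FreeMagma (Fin n)),
        f (code w) = l.map (fun t => (t.1, code t.2)) ∧ (∀ t ∈ l, t.2 ∈ B) ∧
        lieMonomial a w = (l.map fun t => ((t.1.1 : F) / (t.1.2 : F)) • lieMonomial a t.2).sum

/-- Finite presentation as a Lie algebra. -/
def IsFinPresLie (F : Type u) [Field F] (G : Type u) [LieRing G] [LieAlgebra F G] : Prop :=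
  ∃ (m : ℕ) (π : FreeLieAlgebra F (Fin m) →ₗ⁅F⁆ G) (R : Finset (FreeLieAlgebra F (Fin m))),
    Function.Surjective π ∧
      π.ker = LieSubmodule.lieSpan F (FreeLieAlgebra F (Fin m)) (R : Set (FreeLieAlgebra F (Fin m)))

theorem code_injective {n : ℕ} : Function.Injective (code (n := n)) := by
  intro x
  induction x with
  | ih1 i =>
    intro y h
    cases y with
    | of j =>
      have h' : 2 * (i : ℕ) = 2 * (j : ℕ) := h
      exact congrArg FreeMagma.of (Fin.ext (by omega))
    | mul y y' =>
      have h' : 2 * (i : ℕ) = 2 * Nat.pair (code y) (code y') + 1 := h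
      omega
  | ih2 x x' hx hx' =>
    intro y h
    cases y with
    | of j =>
      have h' : 2 * Nat.pair (code x) (code x') + 1 = 2 * (j : ℕ) := h
      omega
    | mul y y' =>
      have h' : 2 * Nat.pair (code x) (code x') + 1 = 2 * Nat.pair (code y) (code y') + 1 := h
      have h2 := Nat.pair_eq_pair.1 (show Nat.pair (code x) (code x') = Nat.pair (code y) (code y')
        by omega)
      rw [hx h2.1, hx' h2.2]
      rfl

theorem result (F : Type u) [Field F] (hF : ∀ K : Subfield F, K = ⊤)
    (L : Type v) [LieRing L] [LieAlgebra F L]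
    (n : ℕ) (a : Fin n → L) (h : HasRecursiveBasis F a) :
    ∃ (G : Type u) (_ : LieRing G) (_ : LieAlgebra F G),
      LieAlgebra.IsSimple F G ∧ IsFinPresLie F G ∧ ∃ φ : L →ₗ⁅F⁆ G, Function.Injective φ := by
  classical
  obtain ⟨B, hB, hli, hsp, f, hf, hfv⟩ := h
  let v : ℕ → L := fun k => if h : k ∈ code '' B then lieMonomial a h.choose else 0
  have hv : ∀ w ∈ B, v (code w) = lieMonomial a w := fun w hw => by
    have h1 : code w ∈ code '' B := ⟨w, hw, rfl⟩
    simp only [v, dif_pos h1]
    rw [code_injective h1.choose_spec.2]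
  let bs : Module.Basis B F L := Module.Basis.mk hli (by
    rw [← hsp]
    exact (congrArg (Submodule.span F) (Set.image_eq_range _ _)).le)
  let e := bs.reindex (Equiv.Set.image code B code_injective)
  have he : ∀ k, e k = v k := by
    rintro ⟨_, w, hw, rfl⟩
    rw [hv w hw, Module.Basis.reindex_apply]
    have : (Equiv.Set.image code B code_injective).symm ⟨_, w, hw, rfl⟩ = ⟨w, hw⟩ :=
      (Equiv.symm_apply_eq _).2 rfl
    rw [this]
    exact Module.Basis.mk_apply _ _ _
  refine Pool.Agent.Lib.MP_4d37d6_al.Lie.lie_main hF (code '' B) hB v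
    (fun k hk => by simp only [v, dif_neg hk]) e he (fun p => f (2 * Nat.pair p.1 p.2 + 1))
    (hf.comp (Primrec.succ.comp (Primrec.nat_mul.comp (Primrec.const 2)
      Primrec₂.natPair)).to_comp) ?_
  rintro _ ⟨w, hw, rfl⟩ _ ⟨w', hw', rfl⟩
  obtain ⟨l, h1, h2, h3⟩ := hfv (.mul w w')
  rw [hv w hw, hv w' hw']
  change lieMonomial a (.mul w w') = (List.map _ (f (code (.mul w w')))).sum
  rw [h1, h3, List.map_map]
  congr 1
  exact List.map_congr_left fun t ht => by simp [hv _ (h2 t ht)]

end Pool.Agent.Results.MP_4d37d6_al.LieEmbedding
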