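import Pool.Agent.Lib.MP_4d37d6_al.WP.LieMain

/-!
Over the rationals a decidable word problem does not suffice, Lie case: a finitely generated Lie
algebra with decidable word problem that lies in no simple subalgebra of a finitely presented Lie
algebra, in particular in no simple finitely presented Lie algebra.
-/

set_option autoImplicit false

namespace Pool.Agent.Results.MP_4d37d6_al.LieWordProblem

universe u v

/-- The standard numbering of the bracketed words (nonassociative monomials) in `n` letters. -/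
def code {n : ℕ} : FreeMagma (Fin n) → ℕ
  | .of i => 2 * i
  | .mul x y => 2 * Nat.pair (code x) (code y) + 1

/-- The value of a bracketed word as a Lie monomial in `a`. -/
def lieMonomial {L : Type} [LieRing L] {n : ℕ} (a : Fin n → L) : FreeMagma (Fin n) → L
  | .of i => a i
  | .mul x y => ⁅lieMonomial a x, lieMonomial a y⁆

/-- The Lie monomials in `a` span `L`, and an algorithm decides whether a formal rational
combination of Lie monomials is zero in `L`; words are handled through their numbers, and the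
coefficient `p / q` is given as `(p, q)`. -/
def HasDecidableWordProblem {L : Type} [LieRing L] [LieAlgebra ℚ L] {n : ℕ} (a : Fin n → L) :
    Prop :=
  Submodule.span ℚ (Set.range (lieMonomial a)) = ⊤ ∧
    ∃ p : List ((ℤ × ℕ) × ℕ) → Prop, ComputablePred p ∧
      ∀ l : List ((ℤ × ℕ) × FreeMagma (Fin n)), p (l.map fun t => (t.1, code t.2)) ↔
        (l.map fun t => ((t.1.1 : ℚ) / (t.1.2 : ℚ)) • lieMonomial a t.2).sum = 0

/-- Finite presentation as a Lie algebra. -/
def IsFinPresLie (H : Type v) [LieRing H] [LieAlgebra ℚ H] : Prop :=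
  ∃ (m : ℕ) (π : FreeLieAlgebra ℚ (Fin m) →ₗ⁅ℚ⁆ H) (R : Finset (FreeLieAlgebra ℚ (Fin m))),
    Function.Surjective π ∧
      π.ker = LieSubmodule.lieSpan ℚ (FreeLieAlgebra ℚ (Fin m)) (R : Set (FreeLieAlgebra ℚ (Fin m)))

open Pool.Agent.Lib.MP_4d37d6_al in
theorem result : ∃ (L : Type) (_ : LieRing L) (_ : LieAlgebra ℚ L) (n : ℕ) (a : Fin n → L),
    HasDecidableWordProblem a ∧
    ∀ (S : Type u) [LieRing S] [LieAlgebra ℚ S] (H : Type v) [LieRing H] [LieAlgebra ℚ H],
      LieAlgebra.IsSimple ℚ S → IsFinPresLie H → ∀ (φ : L →ₗ⁅ℚ⁆ S) (ψ : S →ₗ⁅ℚ⁆ H),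
        ¬ (Function.Injective φ ∧ Function.Injective ψ) := by
  obtain ⟨L, _, _, a, h1, ⟨p, h2, h3⟩, h4⟩ := WP.main_lie.{v, u}
  have e1 : lieMonomial a = WP.lm a := funext fun w => by
    induction w with
    | ih1 i => rfl
    | ih2 x y hx hy => exact congrArg₂ _ hx hy
  have e2 : code = WP.cw := funext fun w => by
    induction w with
    | ih1 i => rfl
    | ih2 x y hx hy => exact congrArg₂ (fun s t => 2 * Nat.pair s t + 1) hx hy
  refine ⟨L, inferInstance, inferInstance, 4, a,
    ⟨by rw [e1, h1], p, h2.computablePred, by rw [e1, e2]; exact h3⟩, ?_⟩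
  rintro S _ _ H _ _ hS ⟨m, π, R, hs, hk⟩ φ ψ ⟨h5, h6⟩
  exact h4 π R hs hk hS.eq_bot_or_eq_top φ ψ (h6.comp h5)

end Pool.Agent.Results.MP_4d37d6_al.LieWordProblem
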