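import Pool.Agent.Lib.MP_4d37d6_al.NonUnital

/-!
Bokut's question for associative algebras: a finitely generated associative algebra with a
recursive basis over a prime field embeds into a simple finitely presented associative algebra.
-/

set_option autoImplicit false

namespace Pool.Agent.Results.MP_4d37d6_al.SimpleEmbedding

universe u v

/-- The value of the monomial `a i * a j₁ * ⋯ * a jₖ` attached to the nonempty word
`(i, [j₁, …, jₖ])`. -/
def monomial {A : Type v} [Mul A] {n : ℕ} (a : Fin n → A) (w : Fin n × List (Fin n)) : A :=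
  w.2.foldl (fun x j => x * a j) (a w.1)

/-- `A` has a recursive basis of monomials in `a`: a recursive set `B` of words whose monomials
form an `F`-basis of `A` (so `a` generates `A`), and an algorithm writing every monomial as a
combination of monomials of `B`; the coefficient `p / q` of the prime field is given as `(p, q)`. -/
def HasRecursiveBasis (F : Type u) [Field F] {A : Type v} [NonUnitalRing A] [Module F A] {n : ℕ}
    (a : Fin n → A) : Prop :=
  ∃ B : Set (Fin n × List (Fin n)), ComputablePred (fun w => w ∈ B) ∧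
    LinearIndepOn F (monomial a) B ∧ Submodule.span F (monomial a '' B) = ⊤ ∧
    ∃ f : Fin n × List (Fin n) → List ((ℤ × ℕ) × (Fin n × List (Fin n))), Computable f ∧
      ∀ w, (∀ t ∈ f w, t.2 ∈ B) ∧
        monomial a w = ((f w).map fun t => ((t.1.1 : F) / (t.1.2 : F)) • monomial a t.2).sum

/-- Finite presentation as a unital algebra. -/
def IsFinPresUnital (F : Type u) [Field F] (S : Type u) [Ring S] [Algebra F S] : Prop :=
  ∃ (m : ℕ) (π : FreeAlgebra F (Fin m) →ₐ[F] S) (R : Finset (FreeAlgebra F (Fin m))),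
    Function.Surjective π ∧
      TwoSidedIdeal.ker π = TwoSidedIdeal.span (R : Set (FreeAlgebra F (Fin m)))

/-- Finite presentation as a quotient of the free associative algebra without identity. -/
def IsFinPresNonUnital (F : Type u) [Field F] (S : Type u) [Ring S] [Algebra F S] : Prop :=
  ∃ (m : ℕ) (π : MonoidAlgebra F (FreeSemigroup (Fin m)) →ₙₐ[F] S)
    (R : Finset (MonoidAlgebra F (FreeSemigroup (Fin m)))), Function.Surjective π ∧
      ∀ x, π x = 0 ↔ ∀ I : TwoSidedIdeal (MonoidAlgebra F (FreeSemigroup (Fin m))),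
        (∀ (c : F) (y : MonoidAlgebra F (FreeSemigroup (Fin m))), y ∈ I → c • y ∈ I) →
          (∀ r ∈ R, r ∈ I) → x ∈ I

theorem result (F : Type u) [Field F] (hF : ∀ K : Subfield F, K = ⊤)
    (A : Type v) [NonUnitalRing A] [Module F A] [IsScalarTower F A A] [SMulCommClass F A A]
    (n : ℕ) (a : Fin n → A) (h : HasRecursiveBasis F a) :
    ∃ (S : Type u) (_ : Ring S) (_ : Algebra F S),
      IsSimpleRing S ∧ IsFinPresUnital F S ∧ IsFinPresNonUnital F S ∧
      ∃ φ : A →ₙₐ[F] S, Function.Injective φ ∧
        ∀ e : A, e ≠ 0 → (∀ x, e * x = x ∧ x * e = x) → φ e = 1 := by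
  obtain ⟨B, hB, hli, hsp, f, hf, hfv⟩ := h
  obtain ⟨m, R, hS, hφ⟩ := Pool.Agent.Lib.MP_4d37d6_al.nonunital_main hF a B hB hli hsp f hf hfv
  have hs : Function.Surjective (RingCon.mkₐ F
      (TwoSidedIdeal.span (R : Set (FreeAlgebra F (Fin m)))).ringCon) :=
    RingCon.mk'_surjective _
  have hk := TwoSidedIdeal.ker_ringCon_mk' (TwoSidedIdeal.span (R : Set (FreeAlgebra F (Fin m))))
  exact ⟨_, inferInstance, inferInstance, hS, ⟨m, _, R, hs, hk⟩,
    ⟨m + 1, Pool.Agent.Lib.MP_4d37d6_al.finPres_nonunital _ R hs hk⟩, hφ⟩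

end Pool.Agent.Results.MP_4d37d6_al.SimpleEmbedding
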