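import Pool.Agent.Lib.MP_4d37d6_al.WP.Main

/-!
Over the rationals a decidable word problem does not suffice: a finitely generated associative
algebra with decidable word problem that lies in no simple subalgebra of a finitely presented
algebra, in particular in no simple finitely presented algebra.
-/

set_option autoImplicit false

namespace Pool.Agent.Results.MP_4d37d6_al.WordProblem

universe u v

/-- The value of the monomial `a i * a j₁ * ⋯ * a jₖ` attached to the nonempty word
`(i, [j₁, …, jₖ])`. -/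
def monomial {A : Type} [Mul A] {n : ℕ} (a : Fin n → A) (w : Fin n × List (Fin n)) : A :=
  w.2.foldl (fun x j => x * a j) (a w.1)

/-- The monomials in `a` span `A`, and an algorithm decides whether a formal rational combination
of monomials is zero in `A`; the coefficient `p / q` is given as `(p, q)`. -/
def HasDecidableWordProblem {A : Type} [Ring A] [Algebra ℚ A] {n : ℕ} (a : Fin n → A) : Prop :=
  Submodule.span ℚ (Set.range (monomial a)) = ⊤ ∧
    ComputablePred fun L : List ((ℤ × ℕ) × (Fin n × List (Fin n))) =>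
      (L.map fun t => ((t.1.1 : ℚ) / (t.1.2 : ℚ)) • monomial a t.2).sum = 0

/-- A simple algebra, identity not assumed: the product is not zero, and the only two-sided
ideals that are subspaces are `0` and `S`. -/
def IsSimple (S : Type u) [NonUnitalRing S] [Module ℚ S] : Prop :=
  (∃ x y : S, x * y ≠ 0) ∧
    ∀ I : TwoSidedIdeal S, (∀ (c : ℚ) (y : S), y ∈ I → c • y ∈ I) → I = ⊥ ∨ I = ⊤

/-- Finite presentation as a quotient of the free associative algebra without identity. -/
def IsFinPres (H : Type v) [NonUnitalRing H] [Module ℚ H] : Prop :=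
  ∃ (m : ℕ) (π : MonoidAlgebra ℚ (FreeSemigroup (Fin m)) →ₙₐ[ℚ] H)
    (R : Finset (MonoidAlgebra ℚ (FreeSemigroup (Fin m)))), Function.Surjective π ∧
      ∀ x, π x = 0 ↔ ∀ I : TwoSidedIdeal (MonoidAlgebra ℚ (FreeSemigroup (Fin m))),
        (∀ (c : ℚ) (y : MonoidAlgebra ℚ (FreeSemigroup (Fin m))), y ∈ I → c • y ∈ I) →
          (∀ r ∈ R, r ∈ I) → x ∈ I

open Pool.Agent.Lib.MP_4d37d6_al in
theorem result : ∃ (A : Type) (_ : Ring A) (_ : Algebra ℚ A) (n : ℕ) (a : Fin n → A),
    HasDecidableWordProblem a ∧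
    ∀ (S : Type u) [NonUnitalRing S] [Module ℚ S] [IsScalarTower ℚ S S] [SMulCommClass ℚ S S]
      (H : Type v) [NonUnitalRing H] [Module ℚ H] [IsScalarTower ℚ H H] [SMulCommClass ℚ H H],
      IsSimple S → IsFinPres H → ∀ (φ : A →ₙₐ[ℚ] S) (ψ : S →ₙₐ[ℚ] H),
        ¬ (Function.Injective φ ∧ Function.Injective ψ) := by
  obtain ⟨A, _, _, a, h1, h2, h3⟩ := WP.main.{v, u}
  let c : Fin 5 → List (Fin 4) := Fin.cases [] fun i => [i]
  have h4 : ∀ w, monomial (fun i => ev a (c i)) w = ev a ((w.1 :: w.2).flatMap c) := by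
    rintro ⟨i, l⟩
    rw [monomial, List.flatMap_cons, ev_append]
    generalize ev a (c i) = x
    induction l generalizing x with
    | nil => simp
    | cons j l ih => rw [List.foldl_cons, ih, List.flatMap_cons, ev_append, mul_assoc]
  refine ⟨A, inferInstance, inferInstance, 5, fun i => ev a (c i), ⟨?_, ?_⟩, ?_⟩
  · rw [eq_top_iff, ← h1]
    refine Submodule.span_mono ?_
    rintro _ ⟨l, rfl⟩
    refine ⟨(0, l.map Fin.succ), ?_⟩
    rw [h4]
    simp [c, List.flatMap_map]
  · have h5 : Primrec fun L : List ((ℤ × ℕ) × (Fin 5 × List (Fin 5))) =>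
        L.map fun t => (t.1, (t.2.1 :: t.2.2).flatMap c) :=
      Primrec.list_map Primrec.id ((Primrec.fst.comp Primrec.snd).pair (Primrec.list_flatMap
        (Primrec.list_cons.comp (Primrec.fst.comp (Primrec.snd.comp Primrec.snd))
          (Primrec.snd.comp (Primrec.snd.comp Primrec.snd)))
        ((Primrec.dom_finite c).comp Primrec.snd).to₂)).to₂
    refine (h2.comp h5).computablePred.of_eq fun L => ?_
    simp only [combVal, h4, List.map_map, Function.comp_def]
  · rintro S _ _ _ _ H _ _ _ _ hS ⟨m, π, R, hs, hk⟩ φ ψ ⟨h5, h6⟩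
    obtain ⟨g, h7, h8⟩ := WP.pres_unit π R hs hk
    exact h3 g h7 h8 hS.2 φ ((Unitization.inrNonUnitalAlgHom ℚ H).comp ψ)
      (Unitization.inr_injective.comp (h6.comp h5))

end Pool.Agent.Results.MP_4d37d6_al.WordProblem
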